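import Pool.Agent.H73.CBE.Stmts

/-!
# Board CBF, second statement: the theorem of board CBE with the gauge function, on `Fin n → ℂ`
-/

set_option autoImplicit false

open Set Filter Topology

namespace Pool.CBF

/-- GAU: the theorem with the gauge.  Proof: as THM of board CBE (`Hyp` from CON FDR TRA EXD), but with
`ρ = H f d - 1` kept: HPR (homogeneity, positivity), HDA and HHL (derivative of `H`), and for the last
five properties copy the proof of DOM (Pool/Agent/H24/CBE/DOM.lean; `dH z ≠ 0` for `H z = 1`: the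
derivative in the direction `z` is `2 H z`).  Then transport to `Fin n → ℂ` as in
Pool/Agent/H81/CBF/XFR.lean. -/
def GAUStmt : Prop :=
  ∀ (n : ℕ) (a : ℝ), 2 ≤ n → 0 < a → a < 1 →
    ∃ (d : ℕ) (H : (Fin n → ℂ) → ℝ) (f : (Fin n → ℂ) → (Fin n → ℂ)), 2 ≤ d ∧
      ContDiff ℝ 1 H ∧
      (∀ R : ℝ, ∃ L : ℝ, ∀ z w : Fin n → ℂ, ‖z‖ ≤ R → ‖w‖ ≤ R →
        ‖fderiv ℝ H z - fderiv ℝ H w‖ ≤ L * ‖z - w‖ ^ a) ∧
      (∀ z, z ≠ 0 → 0 < H z) ∧ (∀ (c : ℂ) (z : Fin n → ℂ), H (c • z) = ‖c‖ ^ 2 * H z) ∧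
      (∀ z, H z = 1 → fderiv ℝ H z ≠ 0) ∧
      Bornology.IsBounded {z | H z < 1} ∧ IsConnected {z | H z < 1} ∧
      (∃ p : Fin n → MvPolynomial (Fin n) ℂ, (∀ i, (p i).IsHomogeneous d) ∧
        ∀ z i, f z i = MvPolynomial.eval z (p i)) ∧
      Differentiable ℂ f ∧ MapsTo f {z | H z < 1} {z | H z < 1} ∧
      (∀ K : Set (Fin n → ℂ), K ⊆ {z | H z < 1} → IsCompact K →
        IsCompact ({z | H z < 1} ∩ f ⁻¹' K)) ∧
      ¬ InjOn f {z | H z < 1}

end Pool.CBF
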