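import Pool.Agent.H73.LPC.Final

/-!
A bounded complete circular domain with a homogeneous proper self-map of degree at least two is
pseudoconvex (it is the basin of the origin: board LPC).
-/

set_option autoImplicit false

open Set Filter Topology

namespace Pool.CBF

open Pool.PHS Pool.LPC

theorem psc_eval {n d : ℕ} (p : MvPolynomial (Fin n) ℂ) (hp : p.IsHomogeneous d) (c : ℂ)
    (z : Fin n → ℂ) : MvPolynomial.eval (c • z) p = c ^ d * MvPolynomial.eval z p := by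
  rw [MvPolynomial.eval_eq', MvPolynomial.eval_eq', Finset.mul_sum]
  refine Finset.sum_congr rfl fun m hm => ?_
  have h1 : ∑ i, m i = d := by
    have h : Finsupp.weight (fun _ : Fin n => 1) m = d := hp (MvPolynomial.mem_support_iff.1 hm)
    rw [← Finsupp.degree_eq_weight_one] at h
    rw [← h, Finsupp.degree_eq_sum]
  have h2 : ∏ i, (c • z) i ^ m i = c ^ d * ∏ i, z i ^ m i := by
    rw [← h1, ← Finset.prod_pow_eq_pow_sum, ← Finset.prod_mul_distrib]
    refine Finset.prod_congr rfl fun i _ => ?_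
    rw [Pi.smul_apply, smul_eq_mul, mul_pow]
  rw [h2]
  ring

theorem psc_hom {n d : ℕ} {f : Cn n → Cn n} {p : Fin n → MvPolynomial (Fin n) ℂ}
    (hp : ∀ i, (p i).IsHomogeneous d) (hf : ∀ z i, f z i = MvPolynomial.eval z (p i)) (c : ℂ)
    (z : Cn n) : f (c • z) = c ^ d • f z := by
  funext i
  rw [hf, psc_eval (p i) (hp i), Pi.smul_apply, smul_eq_mul, hf]

theorem psc_bound {n d : ℕ} {f : Cn n → Cn n} (hc : Continuous f)
    (hh : ∀ (c : ℂ) (z : Cn n), f (c • z) = c ^ d • f z) (hd : 2 ≤ d) :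
    ∃ C : ℝ, 0 < C ∧ ∀ z : Cn n, ‖f z‖ ≤ C * ‖z‖ ^ d := by
  obtain ⟨C, hC⟩ := (isCompact_closedBall (0 : Cn n) 1).exists_bound_of_continuousOn hc.continuousOn
  refine ⟨|C| + 1, by positivity, fun z => ?_⟩
  rcases eq_or_ne z 0 with rfl | hz
  · have h := hh 0 0
    rw [zero_pow (by omega), zero_smul, zero_smul] at h
    rw [h, norm_zero]
    positivity
  · have hz' : 0 < ‖z‖ := norm_pos_iff.2 hz
    have h1 : z = ((‖z‖ : ℝ) : ℂ) • (((‖z‖⁻¹ : ℝ) : ℂ) • z) := by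
      rw [smul_smul, ← Complex.ofReal_mul, mul_inv_cancel₀ hz'.ne', Complex.ofReal_one, one_smul]
    have h2 : ‖(((‖z‖⁻¹ : ℝ) : ℂ) • z)‖ ≤ 1 := by
      rw [norm_smul, Complex.norm_real, Real.norm_eq_abs, abs_of_pos (inv_pos.2 hz'),
        inv_mul_cancel₀ hz'.ne']
    have h3 := hC _ (mem_closedBall_zero_iff.2 h2)
    have h4 : ‖f z‖ = ‖z‖ ^ d * ‖f (((‖z‖⁻¹ : ℝ) : ℂ) • z)‖ := by
      conv_lhs => rw [h1, hh, norm_smul, norm_pow, Complex.norm_real, Real.norm_eq_abs,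
        abs_of_pos hz']
    rw [h4, mul_comm]
    refine mul_le_mul_of_nonneg_right ?_ (by positivity)
    linarith [le_abs_self C]

theorem psc_low {n d : ℕ} {ρ : Cn n → ℝ} {f : Cn n → Cn n} {p : Fin n → MvPolynomial (Fin n) ℂ}
    (hd : 2 ≤ d) (hρ : Continuous ρ)
    (hcirc : ∀ (c : ℂ) (z : Fin n → ℂ), ‖c‖ ≤ 1 → ρ z < 0 → ρ (c • z) < 0)
    (hb : Bornology.IsBounded {z | ρ z < 0}) (hcon : IsConnected {z | ρ z < 0})
    (hp : ∀ i, (p i).IsHomogeneous d) (hf : ∀ z i, f z i = MvPolynomial.eval z (p i))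
    (hfd : Differentiable ℂ f) (hm : MapsTo f {z | ρ z < 0} {z | ρ z < 0})
    (hpr : ∀ L : Set (Fin n → ℂ), L ⊆ {z | ρ z < 0} → IsCompact L →
      IsCompact ({z | ρ z < 0} ∩ f ⁻¹' L)) : Psc {z : Cn n | ρ z < 0} := by
  have hD : IsOpen {z : Cn n | ρ z < 0} := isOpen_lt hρ continuous_const
  have h0 : (0 : Cn n) ∈ {z : Cn n | ρ z < 0} := by
    obtain ⟨z, hz⟩ := hcon.nonempty
    have h := hcirc 0 z (by simp) hz
    rwa [zero_smul] at h
  obtain ⟨C, hC, hfC⟩ := psc_bound hfd.continuous (psc_hom hp hf) hd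
  obtain ⟨r, hr, hr1, hrC, hrD⟩ : ∃ r : ℝ, 0 < r ∧ r ≤ 1 ∧ C * r ≤ 1 / 2 ∧
      Metric.ball (0 : Cn n) r ⊆ {z : Cn n | ρ z < 0} := by
    obtain ⟨ε, hε, hεD⟩ := Metric.isOpen_iff.1 hD 0 h0
    refine ⟨min ε (min 1 (1 / (2 * C))), by positivity, ?_, ?_, ?_⟩
    · exact (min_le_right _ _).trans (min_le_left _ _)
    · have h : min ε (min 1 (1 / (2 * C))) ≤ 1 / (2 * C) :=
        (min_le_right _ _).trans (min_le_right _ _)
      calc C * min ε (min 1 (1 / (2 * C))) ≤ C * (1 / (2 * C)) :=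
            mul_le_mul_of_nonneg_left h hC.le
        _ = 1 / 2 := by field_simp
    · exact (Metric.ball_subset_ball (min_le_left _ _)).trans hεD
  have hhalf : ∀ z : Cn n, ‖z‖ < r → ‖f z‖ ≤ ‖z‖ / 2 := by
    intro z hz
    have h1 : ‖z‖ ^ d ≤ ‖z‖ ^ 2 := pow_le_pow_of_le_one (norm_nonneg z) (hz.le.trans hr1) hd
    calc ‖f z‖ ≤ C * ‖z‖ ^ d := hfC z
      _ ≤ C * ‖z‖ ^ 2 := mul_le_mul_of_nonneg_left h1 hC.le
      _ = (C * ‖z‖) * ‖z‖ := by ring
      _ ≤ (1 / 2) * ‖z‖ := by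
          refine mul_le_mul_of_nonneg_right ?_ (norm_nonneg z)
          exact (mul_le_mul_of_nonneg_left hz.le hC.le).trans hrC
      _ = ‖z‖ / 2 := by ring
  have hit : ∀ z : Cn n, ‖z‖ < r → ∀ k : ℕ, ‖f^[k] z‖ ≤ (1 / 2) ^ k * ‖z‖ := by
    intro z hz k
    induction k with
    | zero => simp
    | succ k ih =>
      rw [Function.iterate_succ_apply']
      have h1 : ‖f^[k] z‖ < r := by
        refine lt_of_le_of_lt (ih.trans ?_) hz
        have : ((1 : ℝ) / 2) ^ k ≤ 1 := pow_le_one₀ (by norm_num) (by norm_num)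
        nlinarith [norm_nonneg z]
      refine (hhalf _ h1).trans ?_
      rw [pow_succ]
      linarith
  refine f_TWO.1 n _ (Metric.ball 0 r) f 0 hD hcon hb ⟨hm, hfd.differentiableOn, hpr⟩
    Metric.isOpen_ball hrD ⟨0, Metric.mem_ball_self hr⟩ h0 ?_
  intro z hz
  rw [mem_ball_zero_iff] at hz
  have hlim : Tendsto (fun k : ℕ => ((1 : ℝ) / 2) ^ k * ‖z‖) atTop (𝓝 0) := by
    have h := (tendsto_pow_atTop_nhds_zero_of_lt_one (r := (1 : ℝ) / 2) (by norm_num)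
      (by norm_num)).mul_const ‖z‖
    rwa [zero_mul] at h
  exact squeeze_zero_norm (fun k => hit z hz k) hlim

end Pool.CBF
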