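import Pool.Agent.H73.CBE.Stmts

/-!
# Board CBF: the theorem of board CBE on `Fin n → ℂ`
-/

set_option autoImplicit false

open Set Filter Topology

namespace Pool.CBF

/-- XFR: the theorem on `Fin n → ℂ`.  Proof: let `e : EuclideanSpace ℂ (Fin n) ≃L[ℂ] (Fin n → ℂ)`
(`EuclideanSpace.equiv (Fin n) ℂ`), `ρ' = ρ ∘ e.symm`, `f' = e ∘ fm d T w ∘ e.symm`.
`fderiv ρ' z = (fderiv ρ (e.symm z)) ∘ e.symm` (as real maps, `e.restrictScalars ℝ`); the constants of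
the Hölder condition change by powers of `‖e‖`, `‖e.symm‖` (take the radius `‖e.symm‖ * |R|`).
Polynomials: `p i = ∑ ζ ∈ T, C (w ζ i) * (∑ k, C (conj (ζ k)) * X k) ^ d`
(`MvPolynomial.IsHomogeneous`: sum, `C` times, power).  Compactness and connectedness: images under the
homeomorphism `e`.  `Differentiable ℂ` from FDR. -/
def XFRStmt : Prop :=
  ∀ (n : ℕ) (a : ℝ), 2 ≤ n → 0 < a → a < 1 →
    ∃ (ρ : (Fin n → ℂ) → ℝ) (f : (Fin n → ℂ) → (Fin n → ℂ)), ContDiff ℝ 1 ρ ∧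
      (∀ R : ℝ, ∃ L : ℝ, ∀ z w : Fin n → ℂ, ‖z‖ ≤ R → ‖w‖ ≤ R →
        ‖fderiv ℝ ρ z - fderiv ℝ ρ w‖ ≤ L * ‖z - w‖ ^ a) ∧
      (∀ z, ρ z = 0 → fderiv ℝ ρ z ≠ 0) ∧
      Bornology.IsBounded {z | ρ z < 0} ∧ IsConnected {z | ρ z < 0} ∧
      (∀ (c : ℂ) (z : Fin n → ℂ), ‖c‖ ≤ 1 → ρ z < 0 → ρ (c • z) < 0) ∧
      (∃ (d : ℕ) (p : Fin n → MvPolynomial (Fin n) ℂ), 2 ≤ d ∧ (∀ i, (p i).IsHomogeneous d) ∧
        ∀ z i, f z i = MvPolynomial.eval z (p i)) ∧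
      Differentiable ℂ f ∧ MapsTo f {z | ρ z < 0} {z | ρ z < 0} ∧
      (∀ L : Set (Fin n → ℂ), L ⊆ {z | ρ z < 0} → IsCompact L →
        IsCompact ({z | ρ z < 0} ∩ f ⁻¹' L)) ∧
      ¬ InjOn f {z | ρ z < 0}

end Pool.CBF
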